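import Mathlib
import Pool.Agent.LibPol19.N05

/-! # Polytopes with three nonsimple vertices, two of them at distance at most two

For `d ≥ 5`, a `d`-polytope with exactly three nonsimple vertices, two of which are joined by a path of at most two
edges, is determined by its `1`-skeleton. -/

set_option autoImplicit false

namespace Pool.Agent.Results.MP_b0c600_co.NearHubs

/-- `P` is a `d`-polytope in `ℝ^d`: the convex hull of a finite set, of dimension `d` -/
def IsPolytope {d : ℕ} (P : Set (EuclideanSpace ℝ (Fin d))) : Prop :=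
  (∃ S : Finset (EuclideanSpace ℝ (Fin d)), P = convexHull ℝ (S : Set (EuclideanSpace ℝ (Fin d)))) ∧ affineSpan ℝ P = ⊤

/-- `v` is a vertex of `P` -/
def IsVertex {d : ℕ} (P : Set (EuclideanSpace ℝ (Fin d))) (v : EuclideanSpace ℝ (Fin d)) : Prop := IsExposed ℝ P {v}

/-- `F` is an edge of `P`, that is, a face of dimension one -/
def IsEdge {d : ℕ} (P F : Set (EuclideanSpace ℝ (Fin d))) : Prop :=
  IsExposed ℝ P F ∧ Module.finrank ℝ (vectorSpan ℝ F) = 1

/-- `v` is a nonsimple vertex of `P`: it lies on more than `d` edges -/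
def Nonsimple {d : ℕ} (P : Set (EuclideanSpace ℝ (Fin d))) (v : EuclideanSpace ℝ (Fin d)) : Prop :=
  IsVertex P v ∧ d < Set.ncard {F : Set (EuclideanSpace ℝ (Fin d)) | IsEdge P F ∧ v ∈ F}

/-- some edge of `P` contains `u` and `v` -/
def Joined {d : ℕ} (P : Set (EuclideanSpace ℝ (Fin d))) (u v : EuclideanSpace ℝ (Fin d)) : Prop :=
  ∃ F : Set (EuclideanSpace ℝ (Fin d)), IsEdge P F ∧ u ∈ F ∧ v ∈ F

/-- the nonempty faces of `P`, ordered by inclusion (subtype order) -/
abbrev Faces {d : ℕ} (P : Set (EuclideanSpace ℝ (Fin d))) : Type :=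
  {F : Set (EuclideanSpace ℝ (Fin d)) // IsExposed ℝ P F ∧ F.Nonempty}

/-- the nonempty faces of `P` of dimension at most one, ordered by inclusion (subtype order) -/
abbrev Skeleton1 {d : ℕ} (P : Set (EuclideanSpace ℝ (Fin d))) : Type :=
  {F : Set (EuclideanSpace ℝ (Fin d)) // IsExposed ℝ P F ∧ F.Nonempty ∧ Module.finrank ℝ (vectorSpan ℝ F) ≤ 1}

/-- Let `d ≥ 5` and let `P` be a `d`-polytope with exactly three nonsimple vertices, two of which are adjacent or have a
common neighbour. Then every `d`-polytope `Q` whose `1`-skeleton is isomorphic to that of `P` has an isomorphic face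
lattice. -/
theorem result :
    ∀ d : ℕ, 5 ≤ d → ∀ P : Set (EuclideanSpace ℝ (Fin d)), IsPolytope P → Set.ncard {v | Nonsimple P v} = 3 →
      (∃ u v, u ≠ v ∧ Nonsimple P u ∧ Nonsimple P v ∧ (Joined P u v ∨ ∃ w, IsVertex P w ∧ Joined P u w ∧ Joined P w v)) →
      ∀ Q : Set (EuclideanSpace ℝ (Fin d)), IsPolytope Q → Nonempty (Skeleton1 P ≃o Skeleton1 Q) →
        Nonempty (Faces P ≃o Faces Q) := by
  intro d hd P hP h3 hadj Q hQ h
  have e : ∀ v : EuclideanSpace ℝ (Fin d), Nonsimple P v ↔ (IsExposed ℝ P {v} ∧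
      d < Set.ncard {F : Set (EuclideanSpace ℝ (Fin d)) | IsExposed ℝ P F ∧
        Module.finrank ℝ (vectorSpan ℝ F) = 1 ∧ v ∈ F}) := by
    intro v
    unfold Nonsimple IsVertex IsEdge
    simp only [and_assoc]
  simp only [e] at h3 hadj
  refine Pool.Agent.LibPol19.near_hubs2 hd hP.1 hP.2 hQ.1 hQ.2 h3 ?_ h
  obtain ⟨u, v, huv, hu, hv, hh⟩ := hadj
  refine ⟨u, v, huv, hu, hv, ?_⟩
  rcases hh with ⟨F, hF, huF, hvF⟩ | ⟨w, hw, ⟨F, hF, huF, hwF⟩, F', hF', hwF', hvF'⟩
  · exact Or.inl ⟨F, hF.1, hF.2, huF, hvF⟩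
  · exact Or.inr ⟨w, F, F', hw, ⟨hF.1, hF.2, huF, hwF⟩, hF'.1, hF'.2, hwF', hvF'⟩

end Pool.Agent.Results.MP_b0c600_co.NearHubs
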